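import Pool.Agent.N694.OB.Cle
import Pool.Agent.N694.BR.Abs

/-!
# Almost all vectors of times in a Bohr set: prime patterns in the orbits of affine maps

Let `S z = a z + b` with `a ≥ 2` and `b` coprime to `a`. For `a = 2`, `b = 1` the sequence
`p, S(p), S²(p), ...` is the Cunningham chain of the first kind generated by `p`. The question is about primes
at the times `0, 1, ..., k - 1`, followed by a composite number.

For all `k`, `s` and `ε > 0` there are `d`, `C` and `ρ, δ > 0` such that for all `a ≥ 2`, `b` coprime to `a`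
and `q ≥ 1` there are `M` and `n₀` such that for EVERY multiple `N` of `M` and every `H ≥ n₀` there are real
numbers `θ_1, ..., θ_d'`, `d' ≤ d`, and a radius `ρ ≤ r ≤ 1` such that the Bohr set

  `B = { t : |t| ≤ H, |exp (2 π i θ_j t) - 1| ≤ r for all j }`

has at least `δ H` elements, and for all but at most `ε |B|^k` of the vectors `y ∈ B^k` the following holds
for every nonsingular integer matrix `T` with entries at most `s` in absolute value. Let
`(h_1, ..., h_k) = N T y`, `h_0 = 0`, and let `t_i = h_i - min h` be the times, the least of which is `0`. Then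
for arbitrarily large `x` all patterns of primes and composites at the times `t_0, ..., t_k` occur for at least
`x / (log x)^C` of the `m ≤ x`, where moreover all values at the times not divisible by `q`, up to the time
`t_i + q - 1` for every `i`, are composite and `m` is not one of the first `q - 1` iterates of a prime. So (all
`t_i` in the pattern, `q = 2`) for almost all vectors of times of the Bohr set there are many chains of exact
length one at all the `k + 1` times.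

Proof: almost cliques of linear forms (`Pool.Agent.N646.AC.covF`) for the forms `S^v(Q n + r)`, where the class
`r` modulo `Q` makes the values at the other times composite (`Pool.Agent.N694.OB.block`), and the theorem on
returns in Bohr sets (`Pool.Agent.N646.AC.returnsZ`) of helper646, there applied to translations.
-/

set_option autoImplicit false

namespace Pool.Agent.Results.MP_77cbc6_nt.BohrSetsOfTimes

open Finset Filter

/-- the affine map `z ↦ a z + b`; for `a = 2`, `b = 1` the map of the Cunningham chains of the first kind -/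
def S (a : ℕ) (b : ℤ) (z : ℤ) : ℤ := a * z + b

/-- Among the iterates `S^{t_i}(m)`, `i = 0, ..., k`, exactly those with `i ∈ J` are prime; no `S^u(m)` is
prime at a time `u` not divisible by `q` which is smaller than some `t_i + q`; and `m` is not `S^l(p)` for a
prime `p` and `0 < l < q`. -/
def Pattern (a : ℕ) (b : ℤ) (q : ℕ) {k : ℕ} (t : Fin (k + 1) → ℕ) (J : Finset (Fin (k + 1))) (m : ℕ) :
    Prop :=
  (∀ i, ((S a b)^[t i] m).toNat.Prime ↔ i ∈ J) ∧
  (∀ i u, u < t i + q → ¬ q ∣ u → ¬ ((S a b)^[u] m).toNat.Prime) ∧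
  ∀ l, 0 < l → l < q → ∀ p : ℕ, p.Prime → (S a b)^[l] p ≠ m

/-- the times `t_i = h_i - min h`, where `h_0 = 0` -/
def times {k : ℕ} (h : Fin k → ℤ) (i : Fin (k + 1)) : ℕ :=
  ((Fin.cons 0 h : Fin (k + 1) → ℤ) i -
    univ.inf' ⟨0, mem_univ 0⟩ (Fin.cons 0 h : Fin (k + 1) → ℤ)).toNat

/-- For arbitrarily large `x`, every pattern `J` at the times `t_i = h_i - min h` occurs for at least
`x / (log x)^C` of the `1 ≤ m ≤ x`. -/
def Good (a : ℕ) (b : ℤ) (q C : ℕ) {k : ℕ} (h : Fin k → ℤ) : Prop :=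
  ∃ᶠ x : ℕ in atTop, ∀ J : Finset (Fin (k + 1)), (x : ℝ) / (Real.log x) ^ C ≤
    ({m : ℕ | 1 ≤ m ∧ m ≤ x ∧ Pattern a b q (times h) J m}.ncard : ℝ)

open Classical in
/-- the Bohr set of the integers `|t| ≤ H` with `|exp (2πiθt) - 1| ≤ r` for all `θ ∈ Θ` -/
noncomputable def bohrSet (Θ : Finset ℝ) (r : ℝ) (H : ℕ) : Finset ℤ :=
  (Icc (-(H : ℤ)) H).filter (fun t => ∀ θ ∈ Θ,
    ‖Complex.exp (2 * Real.pi * Complex.I * θ * t) - 1‖ ≤ r)

/-- the set of the vectors with `k` coordinates in `B` -/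
def vectors (k : ℕ) (B : Finset ℤ) : Finset (Fin k → ℤ) := Fintype.piFinset (fun _ => B)

theorem iter_eq (a : ℕ) (b : ℤ) (t : ℕ) (x : ℤ) : (S a b)^[t] x = Pool.Agent.N694.OB.va a b t x :=
  Pool.Agent.N694.OB.iter a b t x

theorem pattern_iff {a : ℕ} {b : ℤ} {q k : ℕ} {t : Fin (k + 1) → ℕ} {J : Finset (Fin (k + 1))} {m : ℕ} :
    Pattern a b q t J m ↔ Pool.Agent.N694.OB.Ps a b q t J m := by
  unfold Pattern Pool.Agent.N694.OB.Ps Pool.Agent.N694.OB.Pt
  simp only [iter_eq, and_assoc]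

theorem good_of {a : ℕ} {b : ℤ} (ha : 2 ≤ a) {q C k : ℕ} {h : Fin k → ℤ} (hq : ∀ i, (q : ℤ) ∣ h i)
    (hg : Pool.Agent.N694.OB.GoodZ a b q k C h) : Good a b q (C + 1) h := by
  classical
  set h' : Fin (k + 1) → ℤ := Fin.cons 0 h with hh'
  set μ : ℤ := univ.inf' ⟨0, mem_univ 0⟩ h' with hμ
  have h1 : ∀ i, ((times h i : ℕ) : ℤ) = h' i - μ := by
    intro i
    unfold times
    apply Int.toNat_of_nonneg
    have : μ ≤ h' i := inf'_le _ (mem_univ i)
    linarith
  obtain ⟨i₀, -, hi₀⟩ := exists_mem_eq_inf' ⟨0, mem_univ 0⟩ h'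
  have h00 : h' 0 = 0 := by rw [hh', Fin.cons_zero]
  have hq' : ∀ i, (q : ℤ) ∣ h' i := by
    intro i
    rcases Fin.eq_zero_or_eq_succ i with h0 | ⟨j', hj'⟩
    · subst h0
      rw [h00]; exact dvd_zero _
    · subst hj'
      rw [hh', Fin.cons_succ]; exact hq j'
  have h2 := Pool.Agent.N694.OB.goodD ha hg (times h) ⟨i₀, by
      have h3 := h1 i₀
      have h4 : h' i₀ = μ := hi₀.symm
      rw [h4, sub_self] at h3
      exact_mod_cast h3⟩ (fun i => by
      rw [h1, h1, h00]; ring) (by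
      have h3 : (q : ℤ) ∣ ((times h 0 : ℕ) : ℤ) := by
        rw [h1, h00, zero_sub, dvd_neg, hμ, hi₀]
        exact hq' i₀
      exact Int.natCast_dvd_natCast.1 h3)
  unfold Good
  refine h2.mono fun x hx J => (hx J).trans (le_of_eq ?_)
  unfold Pool.Agent.N694.OB.psq
  rw [← Set.ncard_coe_finset]
  congr 2
  ext m
  rw [mem_coe, mem_filter, mem_Icc, Set.mem_ofPred_eq, pattern_iff, and_assoc]

/-- **Bohr sets of times.** -/
theorem result (k s : ℕ) (ε : ℝ) (hε : 0 < ε) : ∃ (d C : ℕ) (ρ δ : ℝ), 0 < ρ ∧ 0 < δ ∧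
    ∀ (a : ℕ) (b : ℤ), 2 ≤ a → IsCoprime (a : ℤ) b → ∀ q : ℕ, 1 ≤ q → ∃ M n₀ : ℕ, 1 ≤ M ∧
      ∀ N : ℕ, 1 ≤ N → M ∣ N → ∀ H : ℕ, n₀ ≤ H → ∃ (Θ : Finset ℝ) (r : ℝ),
        Θ.card ≤ d ∧ ρ ≤ r ∧ r ≤ 1 ∧ δ * H ≤ (bohrSet Θ r H).card ∧
        ∃ 𝒢 ⊆ vectors k (bohrSet Θ r H),
          ((vectors k (bohrSet Θ r H) \ 𝒢).card : ℝ) ≤ ε * ((bohrSet Θ r H).card : ℝ) ^ k ∧
          ∀ y ∈ 𝒢, ∀ T : Matrix (Fin k) (Fin k) ℤ, (∀ i j, |T i j| ≤ s) → T.det ≠ 0 →
            Good a b q C (fun i => N * (T.mulVec y) i) := by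
  obtain ⟨d, ρ, δ, ε', hρ, hδ, hε', h⟩ := Pool.Agent.N694.BR.bohr k s ε hε
  obtain ⟨C, hC⟩ := Pool.Agent.N694.OB.cleO k ε' hε'
  refine ⟨d, C + 1, ρ, δ, hρ, hδ, fun a b ha hab q hq => ?_⟩
  obtain ⟨M, n₀, hM, h1⟩ := h _ (hC a b ha hab q hq)
  refine ⟨M * q, n₀, Nat.mul_pos hM hq, fun N hN hMN H hH => ?_⟩
  obtain ⟨Θ, r, g1, g2, g3, g4, 𝒢, g5, g6, g7⟩ := h1 N hN ((dvd_mul_right _ _).trans hMN) H hH
  refine ⟨Θ, r, g1, g2, g3, g4, 𝒢, g5, ?_, fun y hy T hT hdet => ?_⟩
  · refine le_trans (le_of_eq ?_) g6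
    congr 2
  · refine good_of ha (fun i => ?_) (g7 y hy T hT hdet).2
    exact Dvd.dvd.mul_right (Int.natCast_dvd_natCast.2 ((dvd_mul_left _ _).trans hMN)) _

end Pool.Agent.Results.MP_77cbc6_nt.BohrSetsOfTimes
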