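import Pool.Agent.N625.PT.X18

/-!
# Chains of every exact length `t ≤ r` of the first-kind Cunningham sequence with independent random perturbations, the first
prime in an arbitrary dense set of primes

Nothing is used besides Mathlib in the statement: `∑ v ∈ piFinset (fun _ => range (b ^ k)), (if P v then 0 else ∏ j, μ j (v j))`
is the probability that the vector of the independent random integers `v j < b ^ k` with the distributions `μ j` does not have
the property `P`.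
-/

set_option autoImplicit false

open Finset

namespace Pool.Agent.Results.MP_77cbc6_nt.ExchangeableChains

/-- The probability, for the distribution `μ` on the words of `k` digits (the integers `v < b ^ k`), that the word begins with
the `i` digits of `u < b ^ i`. -/
noncomputable def begins (b k : ℕ) (μ : ℕ → ℝ) (i u : ℕ) : ℝ := ∑ w ∈ range (b ^ (k - i)), μ (u * b ^ (k - i) + w)

/-- `p` is a probability on the words of `k` digits in base `b`, read as integers `v < b ^ k`. There is another probability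
`μ` with `p ≤ k ^ T μ` such that after every beginning `u` two different blocks `a`, `a'` of `L` digits can be exchanged:
`p (u a w) = r p (u a' w)` for all endings `w`, with a factor `r` between `η` and `1 / η` which does not depend on `w`; and
given the beginning `u`, each of the two blocks comes next with a probability of at least `η` in the distribution `μ`.
(For `T = 0` one has `μ = p`. For the uniform distribution on a set of words `r` is `1`.) -/
structure Exchangeable (b L : ℕ) (η : ℝ) (T k : ℕ) (p : ℕ → ℝ) : Prop where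
  nonneg : ∀ v, 0 ≤ p v
  sum : ∑ v ∈ range (b ^ k), p v = 1
  dominated : ∃ μ : ℕ → ℝ, (∀ v, 0 ≤ μ v) ∧ ∑ v ∈ range (b ^ k), μ v = 1 ∧ (∀ v < b ^ k, p v ≤ (k : ℝ) ^ T * μ v) ∧
    ∀ i u : ℕ, i + L ≤ k → u < b ^ i → ∃ (a a' : ℕ) (r : ℝ), a < a' ∧ a' < b ^ L ∧ η ≤ r ∧ η * r ≤ 1 ∧
      (∀ w < b ^ (k - (i + L)), p ((b ^ L * u + a) * b ^ (k - (i + L)) + w) = r * p ((b ^ L * u + a') * b ^ (k - (i + L)) + w)) ∧
      η * begins b k μ i u ≤ begins b k μ (i + L) (b ^ L * u + a) ∧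
      η * begins b k μ i u ≤ begins b k μ (i + L) (b ^ L * u + a')

/-- the product of `1 - 1/q` over the primes `q ≤ y` -/
noncomputable def V (y : ℕ) : ℝ := ∏ q ∈ (Icc 1 y).filter Nat.Prime, (1 - 1 / (q : ℝ))

/-- the multiple of the product of the primes `≤ y` given by the integers `h` and `c + κ v` -/
def Nv (y h : ℕ) (c κ : ℤ) (v : ℕ) : ℤ := ((primorial y * h : ℕ) : ℤ) * (c + κ * v)

/-- the `j`-th term of the first-kind Cunningham sequence of `p`: `a_0 = p`, `a_{j+1} = 2 a_j + 1` -/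
def cun (j p : ℕ) : ℕ := 2 ^ j * (p + 1) - 1

/-- the `p ∈ S` such that `cun j p + N_j` is prime for `1 ≤ j < t` and not prime for `j = t` (`N_j` is written `N (j - 1)`) -/
def Exact {r : ℕ} (t : ℕ) (S : Finset ℕ) (N : Fin r → ℤ) : Finset ℕ :=
  S.filter (fun p : ℕ => (∀ j : Fin r, (j : ℕ) + 1 < t → ((cun (j + 1) p : ℤ) + N j).toNat.Prime) ∧
    ∀ j : Fin r, (j : ℕ) + 1 = t → ¬ ((cun (j + 1) p : ℤ) + N j).toNat.Prime)

/-- the primes `p ≤ x` such that `p + 1` is divisible by `q` -/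
def Cls (q x : ℕ) : Finset ℕ := (Icc 1 x).filter (fun p : ℕ => p.Prime ∧ q ∣ p + 1)

lemma begins_sum (b k : ℕ) (μ : ℕ → ℝ) (i u : ℕ) (hi : i < k) :
    ∑ a ∈ range b, begins b k μ (i + 1) (b * u + a) = begins b k μ i u := by
  unfold begins
  obtain ⟨n, hn⟩ : ∃ n, k - i = n + 1 := ⟨k - i - 1, by omega⟩
  have h1 : k - (i + 1) = n := by omega
  rw [h1, hn, pow_succ, mul_comm (b ^ n) b, Pool.Agent.N625.PT.sum_blocks b (b ^ n)]
  apply sum_congr rfl
  intro a _
  apply sum_congr rfl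
  intro w _
  congr 1
  ring

lemma flex_of {b L T k : ℕ} {η : ℝ} {p : ℕ → ℝ} (hp : Exchangeable b L η T k p) : Pool.Agent.N625.PT.Flex b L η T k p := by
  obtain ⟨h0, h1, μ, m0, m1, m2, m3⟩ := hp
  have hT : (0 : ℝ) ≤ (k : ℝ) ^ T := by positivity
  have hb0 : ∀ i u, 0 ≤ begins b k μ i u := fun i u => sum_nonneg fun w _ => m0 _
  refine ⟨h0, h1, fun i u => (k : ℝ) ^ T * begins b k μ i u, fun i u => mul_nonneg hT (hb0 i u), ?_, ?_, ?_, ?_⟩
  · intro v hv
    refine (m2 v hv).trans (le_of_eq ?_)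
    unfold begins
    simp
  · intro i hi u _
    simp only
    rw [← mul_sum, begins_sum b k μ i u hi]
  · simp only
    have : begins b k μ 0 0 = 1 := by
      unfold begins
      simpa using m1
    rw [this, mul_one]
  · intro i u hi hu
    obtain ⟨a, a', r, q1, q2, q3, q4, q5, q6, q7⟩ := m3 i u hi hu
    refine ⟨a, a', r, q1, q2, q3, q4, q5, ?_, ?_⟩
    · simp only
      calc η * ((k : ℝ) ^ T * begins b k μ i u) = (k : ℝ) ^ T * (η * begins b k μ i u) := by ring
        _ ≤ _ := mul_le_mul_of_nonneg_left q6 hT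
    · simp only
      calc η * ((k : ℝ) ^ T * begins b k μ i u) = (k : ℝ) ^ T * (η * begins b k μ i u) := by ring
        _ ≤ _ := mul_le_mul_of_nonneg_left q7 hT

lemma cun_pos (j p : ℕ) : 1 ≤ cun (j + 1) p := by
  unfold cun
  have h1 : 2 ≤ 2 ^ (j + 1) * (p + 1) := by
    calc 2 = 2 ^ 1 * 1 := by norm_num
      _ ≤ 2 ^ (j + 1) * (p + 1) := Nat.mul_le_mul (Nat.pow_le_pow_right (by norm_num) (by omega)) (by omega)
  omega

lemma cun_cop (j p q D : ℕ) (hp : q ∣ p + 1) (hp1 : 1 ≤ p) (hD : D ∣ q) : (cun j p).Coprime D := by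
  have h2 : D ∣ 2 ^ j * (p + 1) := (hD.trans hp).mul_left _
  have h3 : 1 ≤ 2 ^ j * (p + 1) := Nat.mul_pos (by positivity) (by omega)
  unfold cun
  have h4 : (2 ^ j * (p + 1) - 1).gcd D = 1 := by
    have h5 := Nat.gcd_dvd_left (2 ^ j * (p + 1) - 1) D
    have h6 : (2 ^ j * (p + 1) - 1).gcd D ∣ 2 ^ j * (p + 1) := (Nat.gcd_dvd_right _ _).trans h2
    have h7 : (2 ^ j * (p + 1) - 1).gcd D ∣ 2 ^ j * (p + 1) - (2 ^ j * (p + 1) - 1) := Nat.dvd_sub h6 h5
    have h8 : 2 ^ j * (p + 1) - (2 ^ j * (p + 1) - 1) = 1 := by omega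
    rw [h8] at h7
    exact Nat.dvd_one.1 h7
  exact h4

/-- Let `v 0, ..., v (r - 1)` be independent random integers, `v j < b ^ k`, whose distributions `μ j` have
exchangeable blocks of digits, let `y` be between `θ log k` and `K₁ log k` (`θ > 0` is arbitrary), `M` the product of the
primes `≤ y`, `|c j| ≤ B b ^ k`, `1 ≤ h j ≤ k ^ J`, `N_{j+1} = M (h j) (c j + (κ j) (v j))`, and let `X` be an integer with
`b ^ k ≤ X k ^ C`, `X ≤ b ^ k k ^ C`. (1) Let `S` be ANY set of at least `X / k ^ A` primes `p ≤ X` such that no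
`cun j p`, `p ∈ S`, `1 ≤ j ≤ r`, has a common divisor with `M (h (j - 1))`. With a probability of at least `1 - ε` one has: if all `N_j`
are `≥ 0`, then for EVERY `1 ≤ t ≤ r` the number of the `p ∈ S` such that `cun j p + N_j` is prime for `1 ≤ j < t` and not
prime for `j = t` differs from the expected number `E_t = #S / (V y log b ^ k) ^ (t - 1)` by at most `ε E_t`. (2) If `q` is a
common multiple of the `M (h j)`, `q ≤ k ^ A`, then (1) holds for the set `S` of all primes `p ≤ X`, `p ≡ -1 mod q`, and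
`#S ≥ X / (4 q log X)`. -/
theorem result : ∀ (b L : ℕ), 2 ≤ b → 1 ≤ L → ∀ η : ℝ, 0 < η → η ≤ 1 → ∀ (r : ℕ) (T₀ : ℕ) (κ : Fin r → ℤ),
    (∀ j, κ j ≠ 0) → ∀ (B J A C K₁ : ℕ) (θ : ℝ), 0 < θ → ∀ ε : ℝ, 0 < ε → ε ≤ 1 → ∃ k₀ : ℕ, ∀ k : ℕ, k₀ ≤ k →
    ∀ μ : Fin r → ℕ → ℝ, (∀ j, Exchangeable b L η T₀ k (μ j)) → ∀ y : ℕ, θ * Real.log k ≤ y → y ≤ K₁ * Real.log k →
    ∀ c : Fin r → ℤ, (∀ j, |c j| ≤ B * (b : ℤ) ^ k) → ∀ h : Fin r → ℕ, (∀ j, 1 ≤ h j ∧ h j ≤ k ^ J) →
    ∀ X : ℕ, b ^ k ≤ X * k ^ C → X ≤ b ^ k * k ^ C →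
      (∀ S : Finset ℕ, S ⊆ Icc 1 X → (∀ p ∈ S, p.Prime) →
        (∀ j : Fin r, ∀ p ∈ S, (cun (j + 1) p).Coprime (primorial y * h j)) → (X : ℝ) ≤ S.card * (k : ℝ) ^ A →
        ∑ v ∈ Fintype.piFinset (fun _ : Fin r => range (b ^ k)), (if (∀ j, 0 ≤ Nv y (h j) (c j) (κ j) (v j)) →
          ∀ t : ℕ, 1 ≤ t → t ≤ r → |((Exact t S (fun j => Nv y (h j) (c j) (κ j) (v j))).card : ℝ) - S.card / (V y * (k * Real.log b)) ^ (t - 1)| ≤
            ε * (S.card / (V y * (k * Real.log b)) ^ (t - 1)) then 0 else ∏ j, μ j (v j)) ≤ ε) ∧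
      (∀ q : ℕ, 1 ≤ q → q ≤ k ^ A → (∀ j, primorial y * h j ∣ q) →
        (X : ℝ) / (4 * q * Real.log X) ≤ ((Cls q X).card : ℝ) ∧
        ∑ v ∈ Fintype.piFinset (fun _ : Fin r => range (b ^ k)), (if (∀ j, 0 ≤ Nv y (h j) (c j) (κ j) (v j)) →
          ∀ t : ℕ, 1 ≤ t → t ≤ r → |((Exact t (Cls q X) (fun j => Nv y (h j) (c j) (κ j) (v j))).card : ℝ) -
              (Cls q X).card / (V y * (k * Real.log b)) ^ (t - 1)| ≤
            ε * ((Cls q X).card / (V y * (k * Real.log b)) ^ (t - 1)) then 0 else ∏ j, μ j (v j)) ≤ ε) := by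
  classical
  intro b L hb hL η hη0 hη1 r T₀ κ hκ B J A C K₁ θ hθ ε hε hε1
  obtain ⟨k₀, h0⟩ := Pool.Agent.N625.PT.exact_all b L hb hL η hη0 hη1 r κ hκ T₀ B J (A + 5) (C + 1) K₁ θ hθ ε hε hε1
  obtain ⟨X₀, hX₀⟩ := Pool.Agent.N625.PT.ap_low (A + 1)
  obtain ⟨k₁, h1⟩ := Pool.Agent.N625.PT.X_large b C hb
  obtain ⟨k₂, h2⟩ := Pool.Agent.N625.PT.log_X b C hb
  obtain ⟨k₄, h4⟩ := Pool.Agent.N625.PT.log_low b C hb
  refine ⟨max (max k₀ k₁) (max (max k₂ k₄) (max (2 ^ (r + 1)) (max X₀ (max (4 ^ (A + 1)) 4)))), fun k hk μ hμ y hy1 hy2 c hc h hh X hX1 hX2 => ?_⟩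
  have b1 : 2 ^ (r + 1) ≤ k := by omega
  have b4 : 4 ≤ k := by omega
  have b5 : 4 ^ (A + 1) ≤ k := by omega
  have hkr : (4 : ℝ) ≤ k := by exact_mod_cast b4
  have hk0 : (0 : ℝ) < k := by linarith
  have hkX := h1 k (by omega) X hX1
  have hlX := h2 k (by omega) X hX2
  have hlX2 := h4 k (by omega) X hX1
  have hX1' : b ^ k ≤ (2 ^ (r + 1) * X) * k ^ (C + 1) := by
    refine hX1.trans (Nat.mul_le_mul ?_ (Nat.pow_le_pow_right (by omega) (by omega)))
    exact Nat.le_mul_of_pos_left _ (by positivity)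
  have hX2' : 2 ^ (r + 1) * X ≤ b ^ k * k ^ (C + 1) := by
    calc 2 ^ (r + 1) * X ≤ k * (b ^ k * k ^ C) := Nat.mul_le_mul b1 hX2
      _ = _ := by rw [pow_succ]; ring
  have main : ∀ S : Finset ℕ, S ⊆ Icc 1 X → (∀ p ∈ S, p.Prime) →
        (∀ j : Fin r, ∀ p ∈ S, (cun (j + 1) p).Coprime (primorial y * h j)) → (X : ℝ) ≤ S.card * (k : ℝ) ^ (A + 4) →
        ∑ v ∈ Fintype.piFinset (fun _ : Fin r => range (b ^ k)), (if (∀ j, 0 ≤ Nv y (h j) (c j) (κ j) (v j)) →
          ∀ t : ℕ, 1 ≤ t → t ≤ r → |((Exact t S (fun j => Nv y (h j) (c j) (κ j) (v j))).card : ℝ) - S.card / (V y * (k * Real.log b)) ^ (t - 1)| ≤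
            ε * (S.card / (V y * (k * Real.log b)) ^ (t - 1)) then 0 else ∏ j, μ j (v j)) ≤ ε := by
    intro S hS hSp hSc hSA
    have h5 := h0 k (by omega) μ (fun j => flex_of (hμ j)) y hy1 hy2 c hc h hh (2 ^ (r + 1) * X) hX1' hX2' S
      (fun j p => cun (j + 1) p) (fun j p hp q hq hpq => by
        unfold cun at hpq
        simp only at hpq
        have p1 : 1 ≤ 2 ^ ((j : ℕ) + 1) * (p + 1) := Nat.mul_pos (by positivity) (by omega)
        have q1 : 1 ≤ 2 ^ ((j : ℕ) + 1) * (q + 1) := Nat.mul_pos (by positivity) (by omega)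
        have h6 : 2 ^ ((j : ℕ) + 1) * (p + 1) = 2 ^ ((j : ℕ) + 1) * (q + 1) := by omega
        have h7 := Nat.eq_of_mul_eq_mul_left (by positivity) h6
        omega) (fun j p hp => by
        have hp1 := mem_Icc.1 (hS hp)
        refine ⟨cun_pos _ _, ?_, hSc j p hp⟩
        unfold cun
        have g1 : 2 ^ ((j : ℕ) + 1) ≤ 2 ^ r := Nat.pow_le_pow_right (by norm_num) (by omega)
        calc 2 ^ ((j : ℕ) + 1) * (p + 1) - 1 ≤ 2 ^ ((j : ℕ) + 1) * (p + 1) := Nat.sub_le _ _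
          _ ≤ 2 ^ r * (X + X) := Nat.mul_le_mul g1 (by omega)
          _ = 2 ^ (r + 1) * X := by ring) (by
        push_cast
        have b1r : (2 : ℝ) ^ (r + 1) ≤ k := by exact_mod_cast b1
        calc (2 : ℝ) ^ (r + 1) * X ≤ k * (S.card * (k : ℝ) ^ (A + 4)) := mul_le_mul b1r hSA (Nat.cast_nonneg _) hk0.le
          _ = _ := by ring) (fun _ => 1) (fun _ => Or.inl rfl)
    refine le_trans (sum_le_sum fun v _ => ?_) h5
    have hw0 : 0 ≤ ∏ j, μ j (v j) := prod_nonneg fun j _ => (hμ j).nonneg _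
    split_ifs with q1 q2 q2
    · exact le_rfl
    · exact hw0
    · exfalso
      apply q1
      intro q3 t ht1 ht
      have q4 := q2 (fun j p hp => by
        have g1 := q3 j
        have g2 : Nv y (h j) (c j) (κ j) (v j) = Pool.Agent.N625.PT.Nm y (h j) (c j) (κ j) (v j) := rfl
        have g3 : (1 : ℤ) ≤ (cun ((j : ℕ) + 1) p : ℤ) := by
          have : 1 ≤ cun ((j : ℕ) + 1) p := cun_pos _ _
          exact_mod_cast this
        rw [← g2]
        linarith) t ht1 ht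
      have e1 : (Exact t S (fun j => Nv y (h j) (c j) (κ j) (v j))).card =
          (S.filter (fun i => (∀ j : Fin r, (j : ℕ) + 1 < t → (Pool.Agent.N625.PT.Nm y (h j) (c j) (κ j) (v j) + 1 * (cun ((j : ℕ) + 1) i : ℕ)).toNat.Prime) ∧
            ∀ j : Fin r, (j : ℕ) + 1 = t → ¬ (Pool.Agent.N625.PT.Nm y (h j) (c j) (κ j) (v j) + 1 * (cun ((j : ℕ) + 1) i : ℕ)).toNat.Prime)).card := by
        unfold Exact
        congr 1
        apply filter_congr
        intro i _
        have g4 : ∀ j : Fin r, ((cun ((j : ℕ) + 1) i : ℤ) + Nv y (h j) (c j) (κ j) (v j)) =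
            Pool.Agent.N625.PT.Nm y (h j) (c j) (κ j) (v j) + 1 * (cun ((j : ℕ) + 1) i : ℕ) := by
          intro j
          have g2 : Nv y (h j) (c j) (κ j) (v j) = Pool.Agent.N625.PT.Nm y (h j) (c j) (κ j) (v j) := rfl
          rw [g2]
          ring
        simp_rw [g4]
      rw [e1]
      exact q4
    · exact le_rfl
  refine ⟨fun S hS hSp hSc hSA => main S hS hSp hSc (hSA.trans ?_), fun q hq1 hqk hqd => ?_⟩
  · apply mul_le_mul_of_nonneg_left _ (Nat.cast_nonneg _)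
    exact pow_le_pow_right₀ (by linarith) (by omega)
  · have hqL : (q : ℝ) ≤ Real.log X ^ (A + 1) := by
      have g1 : (q : ℝ) ≤ (k : ℝ) ^ A := by exact_mod_cast hqk
      refine g1.trans ?_
      have g2 : ((k : ℝ) / 4) ^ (A + 1) ≤ Real.log X ^ (A + 1) := pow_le_pow_left₀ (by positivity) hlX2 _
      refine le_trans ?_ g2
      rw [div_pow, le_div_iff₀ (by positivity), pow_succ]
      have g3 : ((4 : ℝ)) ^ (A + 1) ≤ k := by exact_mod_cast b5
      exact mul_le_mul_of_nonneg_left g3 (by positivity)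
    have hq1' : (q - 1).Coprime q := by
      obtain ⟨t, rfl⟩ : ∃ t, q = t + 1 := ⟨q - 1, by omega⟩
      rw [Nat.add_sub_cancel]
      exact (Nat.coprime_self_add_right).2 (Nat.coprime_one_right t)
    have g1 := hX₀ X (by omega) q hq1 hqL (q - 1) hq1'
    have e1 : ((Icc 1 X).filter (fun p : ℕ => p.Prime ∧ p ≡ q - 1 [MOD q])).card = (Cls q X).card := by
      unfold Cls
      congr 1
      apply filter_congr
      intro p _
      have : p ≡ q - 1 [MOD q] ↔ q ∣ p + 1 := by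
        have h6 : p ≡ q - 1 [MOD q] ↔ p + 1 ≡ (q - 1) + 1 [MOD q] := (Nat.ModEq.add_iff_right (Nat.ModEq.refl 1)).symm
        rw [h6, Nat.sub_add_cancel hq1]
        rw [← Nat.modEq_zero_iff_dvd]
        constructor
        · intro h7
          exact h7.trans (by unfold Nat.ModEq; simp)
        · intro h7
          exact h7.trans (by unfold Nat.ModEq; simp)
      rw [this]
    rw [e1] at g1
    refine ⟨g1, main (Cls q X) (filter_subset _ _) (fun p hp => (mem_filter.1 hp).2.1) (fun j p hp => ?_) ?_⟩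
    · have hp' := mem_filter.1 hp
      exact cun_cop _ p q _ hp'.2.2 (mem_Icc.1 hp'.1).1 (hqd j)
    · have hq0 : (0 : ℝ) < q := by exact_mod_cast (by omega : 0 < q)
      have hl0 : 0 < Real.log X := by
        have : 0 < (k : ℝ) / 4 := by positivity
        linarith
      rw [div_le_iff₀ (by positivity)] at g1
      refine g1.trans ?_
      apply mul_le_mul_of_nonneg_left _ (Nat.cast_nonneg _)
      have g2 : (q : ℝ) ≤ (k : ℝ) ^ A := by exact_mod_cast hqk
      calc 4 * (q : ℝ) * Real.log X ≤ k * (k : ℝ) ^ A * (k : ℝ) ^ 2 := by gcongr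
        _ = (k : ℝ) ^ (A + 3) := by ring
        _ ≤ _ := pow_le_pow_right₀ (by linarith) (by omega)

end Pool.Agent.Results.MP_77cbc6_nt.ExchangeableChains
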