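import Mathlib
import Pool.Agent.N9.CC.Step

/-!
# Cunningham chains of exact length `k`, uniformly for `k` up to the longest length, in all sieved
# sequential random models of the primes

The integers are decided one after the other; the multiples of the primes of a finite set `Q` are
never chosen and the conditional probability of choosing an integer `n + 1` which is not such a
multiple, given the decisions up to `n`, is asymptotic to `∏_{p ∈ Q} (1 - 1 / p)⁻¹ / log n`, almost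
surely. No independence and no rate of convergence are assumed. In every such model, almost surely,
for all maps `T y = a y + b`, `a ≥ 2`, `b ≥ 1 - a`, without obstruction at `Q` (`2 y + 1` and
`2 y - 1` have none): all but a proportion `K / log x` of the chains `m, T m, …, T^(k-1) m` of chosen
integers with `m ≤ x` have exact length `k`, uniformly for `k ≤ (1 - δ) log x / log log x`. Hence all
these `k` are exact lengths of chains up to `x`, and the longest chain has length
`(1 + o(1)) log x / log log x` (helper893).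

Method (`Pool/Agent/N9/CC`): the exponential supermartingale of helper893 for all lengths and all `x`
at once (one weight system indexed by `x² + k`) gives that at most a proportion `K / log x` of the
chains of length `k` can be extended; the count of the chains is by helper893.

The notion of a sequential model and the theorem on Hawkins' sieve are from the team files by
helper528 (`Pool/Agent/R528/RM`) and helper740 (`Pool/Agent/N740/HK`).
-/

set_option autoImplicit false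

open MeasureTheory Filter Set
open scoped Topology

namespace Pool.Agent.Results.MP_77cbc6_nt.SievedModels

variable {Ω : Type}

/-- `A n` is the event that `n` is chosen; adapted to `ℱ`; multiples of the primes in `Q` are not
chosen; the conditional probability of `A (n + 1)` given `ℱ n`, times `log n`, tends almost surely to
`∏_{p ∈ Q} (1 - 1 / p)⁻¹` along the `n` such that no `p ∈ Q` divides `n + 1` -/
def SievedModel [m : MeasurableSpace Ω] (μ : Measure Ω) (ℱ : Filtration ℕ m) (A : ℕ → Set Ω)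
    (Q : Finset ℕ) : Prop :=
  (∀ n, MeasurableSet[ℱ n] (A n)) ∧ (∀ n, (∃ p ∈ Q, p ∣ n) → A n = ∅) ∧
  ∀ᵐ ω ∂μ, Tendsto (fun n : ℕ => (μ[(A (n + 1)).indicator (fun _ => (1 : ℝ)) | ℱ n]) ω * Real.log n)
    (atTop ⊓ 𝓟 {n : ℕ | ∀ p ∈ Q, ¬ p ∣ n + 1}) (𝓝 (∏ p ∈ Q, (1 - 1 / (p : ℝ))⁻¹))

open Classical in
/-- The random sieve of Hawkins: `2` is chosen, and given the decisions up to `n ≥ 2` the number
`n + 1` is chosen with probability `∏ (1 - 1 / h)`, the product over the chosen `2 ≤ h ≤ n`. -/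
def HawkinsSieve [m : MeasurableSpace Ω] (μ : Measure Ω) (ℱ : Filtration ℕ m) (A : ℕ → Set Ω) : Prop :=
  (∀ n, MeasurableSet[ℱ n] (A n)) ∧ A 2 = univ ∧
  ∀ n, 2 ≤ n → μ[(A (n + 1)).indicator (fun _ => (1 : ℝ)) | ℱ n] =ᵐ[μ]
    fun ω => ∏ h ∈ Finset.Icc 2 n, if ω ∈ A h then 1 - 1 / (h : ℝ) else 1

/-- `m, T m, ..., T^(k-1) m` are chosen, where `T y = a y + b` -/
def Chain (A : ℕ → Set Ω) (ω : Ω) (a : ℕ) (b : ℤ) (k : ℕ) (m : ℕ) : Prop :=
  ∀ i < k, ∃ v : ℕ, (v : ℤ) = (fun y : ℤ => a * y + b)^[i] m ∧ ω ∈ A v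

/-- the number of `1 ≤ m ≤ x` which start a chain of length `k` -/
noncomputable def chains (A : ℕ → Set Ω) (ω : Ω) (a : ℕ) (b : ℤ) (k : ℕ) (x : ℕ) : ℕ :=
  {m : ℕ | 1 ≤ m ∧ m ≤ x ∧ Chain A ω a b k m}.ncard

/-- the number of `1 ≤ m ≤ x` which start a chain of exact length `k`: `m, ..., T^(k-1) m` are chosen,
`T^k m` is not, and `m` is not `T l` for any chosen `l ≥ 1` -/
noncomputable def exactChains (A : ℕ → Set Ω) (ω : Ω) (a : ℕ) (b : ℤ) (k : ℕ) (x : ℕ) : ℕ :=
  {m : ℕ | 1 ≤ m ∧ m ≤ x ∧ Chain A ω a b k m ∧ (¬ ∃ v : ℕ, (v : ℤ) = (fun y : ℤ => a * y + b)^[k] m ∧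
    ω ∈ A v) ∧ ¬ ∃ l : ℕ, 1 ≤ l ∧ ω ∈ A l ∧ (m : ℤ) = a * l + b}.ncard

/-- no obstruction at the primes of `Q`: none of them divides both `a` and `b`, and those which divide
`a - 1` divide `b` -/
def NoObstruction (Q : Finset ℕ) (a : ℕ) (b : ℤ) : Prop :=
  ∀ p ∈ Q, ¬ ((p : ℤ) ∣ a ∧ (p : ℤ) ∣ b) ∧ ((p : ℤ) ∣ (a : ℤ) - 1 → (p : ℤ) ∣ b)

open Classical in
/-- the asymptotic probability of `m` -/
noncomputable def prob (Q : Finset ℕ) (m : ℕ) : ℝ :=
  if ∀ p ∈ Q, ¬ p ∣ m then min 1 ((∏ p ∈ Q, (1 - 1 / (p : ℝ))⁻¹) / Real.log m) else 0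

/-- the expected number of chains -/
noncomputable def expected (Q : Finset ℕ) (a : ℕ) (b : ℤ) (k x : ℕ) : ℝ :=
  ∑ m ∈ Finset.Icc 1 x, ∏ i ∈ Finset.range k, prob Q ((fun y : ℤ => a * y + b)^[i] m).toNat

/-- the chains of exact length are the chains without those which can be extended -/
lemma exact_ge (A : ℕ → Set Ω) (ω : Ω) {a : ℕ} (ha : 2 ≤ a) {b : ℤ} (hab : 1 ≤ (a : ℤ) + b) (k x : ℕ) :
    chains A ω a b k x ≤ exactChains A ω a b k x + 2 * chains A ω a b (k + 1) x := by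
  classical
  set E := {m : ℕ | 1 ≤ m ∧ m ≤ x ∧ Chain A ω a b k m ∧ (¬ ∃ v : ℕ,
    (v : ℤ) = (fun y : ℤ => a * y + b)^[k] m ∧ ω ∈ A v) ∧
    ¬ ∃ l : ℕ, 1 ≤ l ∧ ω ∈ A l ∧ (m : ℤ) = a * l + b} with hE
  set C1 := {m : ℕ | 1 ≤ m ∧ m ≤ x ∧ Chain A ω a b (k + 1) m} with hC1
  set g : ℕ → ℕ := fun l => ((a : ℤ) * l + b).toNat with hg
  have hfin : ∀ P : ℕ → Prop, {m : ℕ | 1 ≤ m ∧ m ≤ x ∧ P m}.Finite := fun P =>
    (Set.finite_Icc 1 x).subset fun m hm => ⟨hm.1, hm.2.1⟩
  have hsub : {m : ℕ | 1 ≤ m ∧ m ≤ x ∧ Chain A ω a b k m} ⊆ (E ∪ C1) ∪ g '' C1 := by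
    rintro m ⟨h1, h2, h3⟩
    by_cases h4 : ∃ v : ℕ, (v : ℤ) = (fun y : ℤ => a * y + b)^[k] m ∧ ω ∈ A v
    · left
      right
      refine ⟨h1, h2, fun i hi => ?_⟩
      rcases Nat.lt_succ_iff_lt_or_eq.1 hi with h5 | h5
      · exact h3 i h5
      · rw [h5]
        exact h4
    · by_cases h5 : ∃ l : ℕ, 1 ≤ l ∧ ω ∈ A l ∧ (m : ℤ) = a * l + b
      · right
        obtain ⟨l, hl1, hl2, hl3⟩ := h5
        have hlm : l ≤ m := by
          have h6 : (l : ℤ) ≤ m := by
            rw [hl3]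
            have h7 : (1 : ℤ) ≤ l := by exact_mod_cast hl1
            have h8 : (2 : ℤ) ≤ a := by exact_mod_cast ha
            nlinarith
          exact_mod_cast h6
        refine ⟨l, ⟨hl1, hlm.trans h2, fun i hi => ?_⟩, ?_⟩
        · rcases Nat.eq_zero_or_pos i with h6 | h6
          · rw [h6]
            exact ⟨l, rfl, hl2⟩
          · obtain ⟨j, rfl⟩ : ∃ j, i = j + 1 := ⟨i - 1, by omega⟩
            obtain ⟨v, hv, hv2⟩ := h3 j (by omega)
            refine ⟨v, ?_, hv2⟩
            rw [Function.iterate_succ_apply, ← hl3]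
            exact hv
        · simp only [hg]
          rw [← hl3]
          exact Int.toNat_natCast m
      · left
        left
        exact ⟨h1, h2, h3, h4, h5⟩
  have hEf : E.Finite := hfin _
  have hC1f : C1.Finite := hfin _
  have e1 := Set.ncard_le_ncard hsub ((hEf.union hC1f).union (hC1f.image g))
  have e2 := Set.ncard_union_le (E ∪ C1) (g '' C1)
  have e3 := Set.ncard_union_le E C1
  have e4 := Set.ncard_image_le (f := g) hC1f
  have e5 : chains A ω a b k x = {m : ℕ | 1 ≤ m ∧ m ≤ x ∧ Chain A ω a b k m}.ncard := rfl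
  have e6 : exactChains A ω a b k x = E.ncard := rfl
  have e7 : chains A ω a b (k + 1) x = C1.ncard := rfl
  rw [e5, e6, e7]
  omega

lemma exact_le (A : ℕ → Set Ω) (ω : Ω) (a : ℕ) (b : ℤ) (k x : ℕ) :
    exactChains A ω a b k x ≤ chains A ω a b k x := by
  unfold chains exactChains
  apply Set.ncard_le_ncard
  · rintro m ⟨h1, h2, h3, _⟩
    exact ⟨h1, h2, h3⟩
  · exact (Set.finite_Icc 1 x).subset fun m hm => ⟨hm.1, hm.2.1⟩

end Pool.Agent.Results.MP_77cbc6_nt.SievedModels

open Pool.Agent.Results.MP_77cbc6_nt.SievedModels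

/-- Hawkins' sieve is a sieved model with `Q = ∅`. In every sieved model, almost surely, for all
`T y = a y + b`, `a ≥ 2`, `b ≥ 1 - a`, without obstruction at `Q`: (1) for `0 < δ < 1` there is a `K`
such that for all large `x` and all `k ≤ (1 - δ) log x / log log x` all but at most `K N / log x` of
the `N` numbers `1 ≤ m ≤ x` which start a chain of length `k` start one of exact length `k`, not
extendable on either side; (2) for `0 < ε < 1`, all large `x` and `1 ≤ k ≤ (1 - δ) log x / log log x`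
the number of the chains of exact length `k` is between `(1 - ε)^k E` and `(1 + ε)^k E`, `E` the
expected number, and at least `x^(δ/2) / 2`; (3) for `δ > 0` and large `x` there is no chain of length
`k ≥ (1 + δ) log x / log log x` starting in `[2, x]`. -/
theorem Pool.Agent.Results.MP_77cbc6_nt.SievedModels.result
    {Ω : Type} [m : MeasurableSpace Ω] (μ : Measure Ω) [IsProbabilityMeasure μ]
    (ℱ : Filtration ℕ m) (A : ℕ → Set Ω) :
    (HawkinsSieve μ ℱ A → SievedModel μ ℱ A ∅) ∧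
    (∀ Q : Finset ℕ, (∀ p ∈ Q, p.Prime) → SievedModel μ ℱ A Q → ∀ᵐ ω ∂μ,
      ∀ (a : ℕ) (b : ℤ), 2 ≤ a → 1 ≤ (a : ℤ) + b → NoObstruction Q a b →
      (∀ δ : ℝ, 0 < δ → δ < 1 → ∃ K : ℝ, ∀ᶠ x : ℕ in atTop, ∀ k : ℕ,
        (k : ℝ) ≤ (1 - δ) * (Real.log x / Real.log (Real.log x)) →
        (chains A ω a b k x : ℝ) - exactChains A ω a b k x ≤ K / Real.log x * chains A ω a b k x) ∧
      (∀ δ ε : ℝ, 0 < δ → δ < 1 → 0 < ε → ε < 1 → ∀ᶠ x : ℕ in atTop, ∀ k : ℕ, 1 ≤ k →
        (k : ℝ) ≤ (1 - δ) * (Real.log x / Real.log (Real.log x)) →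
        (1 - ε) ^ k * expected Q a b k x ≤ exactChains A ω a b k x ∧
        exactChains A ω a b k x ≤ (1 + ε) ^ k * expected Q a b k x ∧
        (x : ℝ) ^ (δ / 2) / 2 ≤ exactChains A ω a b k x) ∧
      (∀ δ : ℝ, 0 < δ → ∀ᶠ x : ℕ in atTop, ∀ k : ℕ,
        (1 + δ) * (Real.log x / Real.log (Real.log x)) ≤ k →
        ∀ m : ℕ, 2 ≤ m → m ≤ x → ¬ Chain A ω a b k m)) := by
  classical
  refine ⟨(Pool.Agent.N9.CC.longest μ ℱ A).1, fun Q hQ hM => ?_⟩
  have hlong := (Pool.Agent.N9.CC.longest μ ℱ A).2 Q hQ hM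
  obtain ⟨hA, hcop, hd⟩ := hM
  have hprof := Pool.Agent.N893.SM.profile (μ := μ) hA Q hQ hcop hd
  have hext : ∀ᵐ ω ∂μ, ∀ (a : ℕ) (b : ℤ), 2 ≤ a → 1 ≤ (a : ℤ) + b →
      ∀ δ : ℝ, 0 < δ → ∃ K : ℝ, 0 < K ∧ ∀ᶠ x : ℕ in atTop, ∀ k : ℕ, (k : ℝ) ≤ Real.log x →
      (x : ℝ) ^ (δ / 2) ≤ chains A ω a b k x →
      (chains A ω a b (k + 1) x : ℝ) ≤ K / Real.log x * chains A ω a b k x := by
    rw [ae_all_iff]; intro a
    rw [ae_all_iff]; intro b
    by_cases ha : 2 ≤ a
    · by_cases hab : 1 ≤ (a : ℤ) + b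
      · filter_upwards [Pool.Agent.N9.CC.extend (μ := μ) hA hprof ha hab] with ω hω _ _
        exact hω
      · exact Eventually.of_forall fun ω _ h => absurd h hab
    · exact Eventually.of_forall fun ω h => absurd h ha
  filter_upwards [hlong, hext] with ω hω1 hω2 a b ha hab hob
  obtain ⟨hL1, hL2⟩ := hω1 a b ha hab hob
  have hlogT : Tendsto (fun N : ℕ => Real.log (N : ℝ)) atTop atTop :=
    Real.tendsto_log_atTop.comp tendsto_natCast_atTop_atTop
  have hLL : Tendsto (fun x : ℕ => Real.log (Real.log x)) atTop atTop :=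
    Real.tendsto_log_atTop.comp hlogT
  -- all but a small proportion are exact
  have hmain : ∀ δ : ℝ, 0 < δ → δ < 1 → ∃ K : ℝ, 0 < K ∧ ∀ᶠ x : ℕ in atTop, ∀ k : ℕ,
        (k : ℝ) ≤ (1 - δ) * (Real.log x / Real.log (Real.log x)) →
        (chains A ω a b k x : ℝ) - exactChains A ω a b k x ≤ K / Real.log x * chains A ω a b k x := by
    intro δ hδ0 hδ1
    obtain ⟨K, hK0, hK⟩ := hω2 a b ha hab δ hδ0
    refine ⟨2 * K, by positivity, ?_⟩
    filter_upwards [hK, hL1 δ (1 / 2) hδ0 hδ1 (by norm_num) (by norm_num),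
      hLL.eventually_ge_atTop (1 : ℝ), hlogT.eventually_ge_atTop (1 : ℝ)] with x h1 h2 h3 h4 k hk
    have hkL : (k : ℝ) ≤ Real.log x := by
      refine hk.trans ?_
      have h5 : Real.log (x : ℝ) / Real.log (Real.log x) ≤ Real.log x := div_le_self (by linarith) h3
      have h0 : 0 ≤ Real.log (x : ℝ) / Real.log (Real.log x) := div_nonneg (by linarith) (by linarith)
      nlinarith
    have h5 := h1 k hkL (h2 k hk).2.2
    have h6 : (chains A ω a b k x : ℝ) ≤ exactChains A ω a b k x + 2 * chains A ω a b (k + 1) x := by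
      exact_mod_cast exact_ge A ω ha hab k x
    have h7 : 2 * K / Real.log x * (chains A ω a b k x : ℝ) =
        2 * (K / Real.log x * chains A ω a b k x) := by ring
    rw [h7]
    linarith
  refine ⟨fun δ hδ0 hδ1 => ?_, fun δ ε hδ0 hδ1 hε0 hε1 => ?_, hL2⟩
  · obtain ⟨K, _, hK⟩ := hmain δ hδ0 hδ1
    exact ⟨K, hK⟩
  · obtain ⟨K, hK0, hK⟩ := hmain δ hδ0 hδ1
    filter_upwards [hK, hL1 δ (ε / 2) hδ0 hδ1 (by positivity) (by linarith),
      hLL.eventually_ge_atTop (1 : ℝ), hlogT.eventually_ge_atTop (2 * K / ε + 1)] with x h1 h2 h3 h4 k hk1 hk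
    obtain ⟨g1, g2, g3⟩ := h2 k hk
    have g4 := h1 k hk
    have g5 : (exactChains A ω a b k x : ℝ) ≤ chains A ω a b k x := by
      exact_mod_cast exact_le A ω a b k x
    have hlog : 0 < Real.log (x : ℝ) := by
      have : 0 < 2 * K / ε + 1 := by positivity
      linarith
    have hE0 : 0 ≤ expected Q a b k x := by
      unfold expected
      refine Finset.sum_nonneg fun m _ => Finset.prod_nonneg fun i _ => ?_
      unfold prob
      split_ifs
      · apply le_min zero_le_one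
        apply div_nonneg _ (Real.log_natCast_nonneg _)
        refine Finset.prod_nonneg fun p hp => inv_nonneg.2 ?_
        have : (1 : ℝ) ≤ p := by exact_mod_cast (hQ p hp).one_lt.le
        rw [sub_nonneg, div_le_one (by linarith)]
        exact this
      · exact le_rfl
    have hKε : K / Real.log x ≤ ε / 2 := by
      rw [div_le_iff₀ hlog]
      have : 2 * K / ε ≤ Real.log x := by linarith
      rw [div_le_iff₀ hε0] at this
      linarith
    have hN0 : (0 : ℝ) ≤ chains A ω a b k x := Nat.cast_nonneg _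
    have g6 : (1 - ε / 2) * (chains A ω a b k x : ℝ) ≤ exactChains A ω a b k x := by
      have : K / Real.log x * (chains A ω a b k x : ℝ) ≤ ε / 2 * chains A ω a b k x :=
        mul_le_mul_of_nonneg_right hKε hN0
      linarith
    have g1' : (1 - ε / 2) ^ k * expected Q a b k x ≤ chains A ω a b k x := g1
    have g2' : (chains A ω a b k x : ℝ) ≤ (1 + ε / 2) ^ k * expected Q a b k x := g2
    have g3' : (x : ℝ) ^ (δ / 2) ≤ chains A ω a b k x := g3
    refine ⟨?_, ?_, ?_⟩
    · obtain ⟨j, rfl⟩ : ∃ j, k = j + 1 := ⟨k - 1, by omega⟩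
      have e1 : (1 - ε) ^ (j + 1) ≤ (1 - ε / 2) * (1 - ε / 2) ^ (j + 1) := by
        rw [pow_succ (1 - ε) j, pow_succ (1 - ε / 2) j]
        have e2 : (1 - ε) ^ j ≤ (1 - ε / 2) ^ j := pow_le_pow_left₀ (by linarith) (by linarith) j
        have e3 : (1 - ε) ≤ (1 - ε / 2) * (1 - ε / 2) := by nlinarith
        have e4 : 0 ≤ (1 - ε / 2) ^ j := pow_nonneg (by linarith) j
        calc (1 - ε) ^ j * (1 - ε) ≤ (1 - ε / 2) ^ j * (1 - ε) :=
              mul_le_mul_of_nonneg_right e2 (by linarith)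
          _ ≤ (1 - ε / 2) ^ j * ((1 - ε / 2) * (1 - ε / 2)) := mul_le_mul_of_nonneg_left e3 e4
          _ = _ := by ring
      calc (1 - ε) ^ (j + 1) * expected Q a b (j + 1) x ≤
          (1 - ε / 2) * (1 - ε / 2) ^ (j + 1) * expected Q a b (j + 1) x :=
            mul_le_mul_of_nonneg_right e1 hE0
        _ = (1 - ε / 2) * ((1 - ε / 2) ^ (j + 1) * expected Q a b (j + 1) x) := by ring
        _ ≤ (1 - ε / 2) * (chains A ω a b (j + 1) x : ℝ) :=
            mul_le_mul_of_nonneg_left g1' (by linarith)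
        _ ≤ _ := g6
    · have e2 : (1 + ε / 2) ^ k ≤ (1 + ε) ^ k := pow_le_pow_left₀ (by linarith) (by linarith) k
      have e3 : (1 + ε / 2) ^ k * expected Q a b k x ≤ (1 + ε) ^ k * expected Q a b k x :=
        mul_le_mul_of_nonneg_right e2 hE0
      linarith
    · have e1 : 1 / 2 * (chains A ω a b k x : ℝ) ≤ (1 - ε / 2) * (chains A ω a b k x : ℝ) :=
        mul_le_mul_of_nonneg_right (by linarith) hN0
      linarith
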